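import Pool.Agent.H48Cap.Tab

/-! Three classes of words of length 4 over the seven classes of `SL`. -/

set_option autoImplicit false

namespace Pool.Agent.H48Cap

open Pool.Agent.H523R2.Cap

def SB0 : List (List ℕ) := [[0, 3, 3, 4], [1, 1, 2, 5], [1, 1, 3, 3], [1, 1, 5, 2], [1, 3, 3, 1],
  [1, 3, 5, 0], [1, 4, 0, 5], [1, 4, 1, 3], [1, 5, 1, 1], [1, 5, 4, 0], [3, 0, 1, 6], [3, 1, 0,
  5], [3, 1, 1, 3], [3, 3, 1, 1], [4, 1, 3, 1], [4, 1, 5, 0], [5, 0, 0, 6], [5, 1, 0, 4], [5, 1,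
  1, 1], [6, 0, 1, 3], [6, 0, 3, 1]]

def SB1 : List (List ℕ) := [[0, 1, 6, 6], [0, 4, 5, 4], [0, 5, 3, 4], [1, 1, 4, 5], [1, 1, 6, 3],
  [1, 4, 1, 6], [1, 4, 4, 3], [1, 4, 5, 2], [1, 5, 1, 4], [1, 5, 4, 2], [1, 6, 5, 0], [2, 0, 6,
  6], [3, 0, 4, 6], [3, 1, 4, 3], [4, 1, 6, 1], [4, 4, 0, 5], [4, 4, 1, 3], [4, 4, 3, 1], [4, 4,
  5, 0], [4, 5, 1, 1], [4, 5, 4, 0], [5, 1, 4, 1], [5, 4, 0, 4], [5, 4, 1, 1], [6, 0, 4, 3], [6,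
  0, 5, 2], [6, 1, 5, 0], [6, 2, 0, 5], [6, 2, 1, 3], [6, 5, 1, 0]]

def SB2 : List (List ℕ) := [[0, 1, 6, 6], [0, 3, 6, 4], [0, 6, 2, 5], [1, 1, 3, 6], [1, 3, 6, 1],
  [1, 5, 6, 0], [1, 6, 0, 5], [1, 6, 1, 3], [1, 6, 3, 1], [2, 0, 5, 6], [2, 3, 3, 4], [3, 0, 3,
  6], [3, 3, 0, 5], [3, 3, 1, 4], [3, 3, 4, 1], [3, 3, 5, 0], [3, 5, 4, 0], [3, 6, 1, 1], [4, 1,
  2, 5], [4, 1, 3, 4], [5, 0, 2, 6], [5, 1, 2, 4], [5, 3, 0, 4], [5, 4, 4, 0], [6, 0, 3, 4], [6,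
  0, 6, 1], [6, 6, 1, 0]]

lemma ok_SB0 : okL 7 4 SB0 = true := by decide +kernel

lemma ok_SB1 : okL 7 4 SB1 = true := by decide +kernel

lemma ok_SB2 : okL 7 4 SB2 = true := by decide +kernel

lemma cap_SB0 : capL T7 7 SB0 = true := by decide +kernel

lemma cap_SB1 : capL T7 7 SB1 = true := by decide +kernel

lemma cap_SB2 : capL T7 7 SB2 = true := by decide +kernel

lemma none_SB_001 : none3 T7 7 SB0 SB0 SB1 = true := by decide +kernel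

lemma none_SB_002 : none3 T7 7 SB0 SB0 SB2 = true := by decide +kernel

lemma none_SB_012 : none3 T7 7 SB0 SB1 SB2 = true := by decide +kernel

lemma chk_SB : chk T7 7 T3 4 [SB0, SB1, SB2] = true :=
  chk_of (by decide +kernel) ok_SB0 ok_SB1 ok_SB2 cap_SB0 cap_SB1 cap_SB2 none_SB_001 none_SB_002 none_SB_012

end Pool.Agent.H48Cap
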