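import Pool.Agent.H48Cap.Tab

/-! Three classes of words of length 4 over the seven classes of `SL`. -/

set_option autoImplicit false

namespace Pool.Agent.H48Cap

open Pool.Agent.H523R2.Cap

def SC0 : List (List ℕ) := [[0, 1, 4, 5], [0, 1, 5, 3], [1, 1, 1, 5], [1, 1, 3, 3], [1, 3, 3, 1],
  [1, 4, 1, 3], [1, 5, 1, 1], [1, 6, 3, 0], [3, 1, 1, 4], [3, 1, 3, 1], [3, 4, 1, 1], [3, 6, 1,
  0], [4, 0, 3, 3], [4, 5, 0, 1], [5, 1, 0, 4], [5, 1, 2, 1], [5, 4, 0, 1], [6, 4, 1, 0], [6, 5,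
  0, 0]]

def SC1 : List (List ℕ) := [[0, 2, 5, 6], [0, 3, 4, 5], [0, 3, 6, 4], [0, 6, 1, 5], [0, 6, 3, 4],
  [1, 3, 1, 5], [1, 3, 3, 4], [1, 3, 5, 1], [1, 5, 1, 4], [1, 5, 4, 1], [1, 6, 5, 0], [2, 0, 5,
  6], [2, 1, 4, 5], [2, 1, 5, 3], [3, 1, 4, 4], [3, 1, 5, 1], [3, 3, 1, 4], [3, 4, 4, 1], [3, 6,
  1, 2], [4, 0, 3, 5], [4, 0, 5, 3], [4, 1, 1, 5], [4, 5, 0, 4], [5, 1, 4, 1], [5, 3, 0, 4], [6,
  0, 5, 1], [6, 1, 1, 4], [6, 2, 5, 0], [6, 4, 4, 0], [6, 6, 0, 2]]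

def SC2 : List (List ℕ) := [[0, 1, 6, 5], [0, 4, 4, 5], [0, 5, 4, 4], [0, 6, 1, 6], [1, 1, 3, 6],
  [1, 1, 6, 3], [1, 3, 6, 1], [1, 4, 1, 6], [1, 4, 4, 3], [1, 6, 6, 0], [3, 1, 1, 6], [3, 1, 6,
  1], [4, 0, 6, 3], [4, 2, 3, 3], [4, 3, 3, 1], [4, 3, 5, 0], [4, 4, 1, 3], [4, 5, 0, 3], [4, 5,
  2, 1], [4, 6, 3, 0], [5, 0, 2, 6], [5, 1, 0, 6], [5, 3, 2, 1], [5, 4, 0, 3], [6, 0, 5, 1], [6,
  1, 3, 1], [6, 2, 5, 0], [6, 4, 3, 0], [6, 5, 2, 0]]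

lemma ok_SC0 : okL 7 4 SC0 = true := by decide +kernel

lemma ok_SC1 : okL 7 4 SC1 = true := by decide +kernel

lemma ok_SC2 : okL 7 4 SC2 = true := by decide +kernel

lemma cap_SC0 : capL T7 7 SC0 = true := by decide +kernel

lemma cap_SC1 : capL T7 7 SC1 = true := by decide +kernel

lemma cap_SC2 : capL T7 7 SC2 = true := by decide +kernel

lemma none_SC_001 : none3 T7 7 SC0 SC0 SC1 = true := by decide +kernel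

lemma none_SC_002 : none3 T7 7 SC0 SC0 SC2 = true := by decide +kernel

lemma none_SC_012 : none3 T7 7 SC0 SC1 SC2 = true := by decide +kernel

lemma chk_SC : chk T7 7 T3 4 [SC0, SC1, SC2] = true :=
  chk_of (by decide +kernel) ok_SC0 ok_SC1 ok_SC2 cap_SC0 cap_SC1 cap_SC2 none_SC_001 none_SC_002 none_SC_012

end Pool.Agent.H48Cap
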