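import Pool.Agent.H48Cap.SA
import Pool.Agent.H48Cap.SB
import Pool.Agent.H48Cap.SC

/-!
# A further certificate for large cap sets

`SF`: six classes in dimension 6: the zero vector; the 12 vectors of weight one; two classes of 80
vectors of weight three, whose supports are the 10 blocks of a 2-(6, 3, 2) design and the 10
complements; the two parity classes, of 32 vectors each, of the vectors of weight six.
`SX`: three classes in dimension 24, unions of products of these; the first one is larger than in the
extended product with three classes only.  `SA`, `SB`, `SC`: three classes each, of words of length 4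
over the seven classes of `SL`.
-/

set_option autoImplicit false

namespace Pool.Agent.H48Cap

open Pool.Agent.H523R2.Cap

lemma g0 : Has T1 3 1 ([1, 1, 1].map (· * 2 ^ 0)) := has_one

lemma g1 : Has T5 5 2
    ([1, 2, 2, 2, 2].map (· * 2 ^ 0)) :=
  step3 g0 T5 2 S5 chk_S5 _ 0 (by decide +kernel) _ _ _ (by decide +kernel)
    (by norm_num) (by norm_num)

lemma g2 : Has T6 6 6
    ([1, 12, 80, 80, 32, 32].map (· * 2 ^ 0)) :=
  step3 g1 T6 3 SF chk_SF _ 0 (by decide +kernel) _ _ _ (by decide +kernel)
    (by norm_num) (by norm_num)

lemma g3 : Has T3 3 24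
    ([69206016, 157351936, 157351936].map (· * 2 ^ 0)) :=
  step3 g2 T3 4 SX chk_SX _ 0 (by decide +kernel) _ _ _ (by decide +kernel)
    (by norm_num) (by norm_num)

lemma g4 : Has T7 7 72
    ([632210389878177792, 4312321437777002496, 4312321437777002496, 9804814178127446016, 9804814178127446016, 7430984482854797312, 7430984482854797312].map (· * 2 ^ 19)) :=
  step3 g3 T7 3 SL chk_SL _ 19 (by decide +kernel) _ _ _ (by decide +kernel)
    (by norm_num) (by norm_num)

lemma g5 : Has T3 3 288
    ([15377426001987643336, 17853578254725498864, 15043292788703892561].map (· * 2 ^ 267)) :=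
  step3 g4 T3 4 [SA0, SA1, SA2] chk_SA _ 191 (by decide +kernel) _ _ _ (by decide +kernel)
    (by norm_num) (by norm_num)

lemma g6 : Has T7 7 864
    ([2671477379314572821, 9304957235591328835, 7840288041100101148, 9102771560290784747, 9102771560290784747, 4180963518318353298, 2501089820103864861].map (· * 2 ^ 931)) :=
  step3 g5 T7 3 SL chk_SL _ 130 (by decide +kernel) _ _ _ (by decide +kernel)
    (by norm_num) (by norm_num)

lemma g7 : Has T3 3 3456
    ([10342714161949285323, 10489151745160371040, 8014771082137841304].map (· * 2 ^ 3916)) :=
  step3 g6 T3 4 [SB0, SB1, SB2] chk_SB _ 192 (by decide +kernel) _ _ _ (by decide +kernel)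
    (by norm_num) (by norm_num)

lemma g8 : Has T7 7 10368
    ([3251352990474606458, 9892162065051663615, 7558610685118355358, 7665629467986237558, 7665629467986237558, 3391420648514509489, 1512982562360427581].map (· * 2 ^ 11876)) :=
  step3 g7 T7 3 SL chk_SL _ 128 (by decide +kernel) _ _ _ (by decide +kernel)
    (by norm_num) (by norm_num)

lemma g9 : Has T3 3 41472
    ([16056348302499543412, 14834160589273031031, 10747681125210841545].map (· * 2 ^ 47695)) :=
  step3 g8 T3 4 [SC0, SC1, SC2] chk_SC _ 191 (by decide +kernel) _ _ _ (by decide +kernel)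
    (by norm_num) (by norm_num)

lemma g10 : Has T7 7 124416
    ([6082342906842423843, 16858089349945231663, 12214062779160159837, 11284344690337750228, 11284344690337750228, 4796445211398864463, 1824210191570958807].map (· * 2 ^ 143214)) :=
  step3 g9 T7 3 SL chk_SL _ 129 (by decide +kernel) _ _ _ (by decide +kernel)
    (by norm_num) (by norm_num)

lemma g11 : Has T3 3 497664
    ([12859581893971736511, 10540200570951228382, 7232569046461290846].map (· * 2 ^ 573050)) :=
  step3 g10 T3 4 [SC0, SC1, SC2] chk_SC _ 194 (by decide +kernel) _ _ _ (by decide +kernel)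
    (by norm_num) (by norm_num)

lemma num : Good 497664 [12859581893971736511, 10540200570951228382, 7232569046461290846] 573050 1
    222161 100000 = true := by decide +kernel

/-- Cap sets in `F_3^n` with at least `2.2216 ^ n` elements, for all large `n`. -/
theorem rate : ∃ n0 : ℕ, ∀ n : ℕ, n0 ≤ n → ∃ A : Finset (Fin n → ZMod 3),
    APF A ∧ (2.2216 : ℝ) ^ n ≤ (A.card : ℝ) :=
  finish T3 3 497664 [12859581893971736511, 10540200570951228382, 7232569046461290846] 573050
    g11 1 (by decide) (by decide) 222161 100000 (by decide) 2.2216 (by norm_num)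
    (by norm_num) num

end Pool.Agent.H48Cap
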