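import Pool.Agent.H48Cap.Tab

/-! Three classes of words of length 4 over the seven classes of `SL`. -/

set_option autoImplicit false

namespace Pool.Agent.H48Cap

open Pool.Agent.H523R2.Cap

def SA0 : List (List ℕ) := [[1, 4, 3, 5], [1, 4, 5, 3], [1, 5, 2, 5], [1, 6, 4, 3], [3, 1, 3, 5],
  [3, 1, 5, 3], [3, 3, 2, 5], [3, 3, 4, 3], [4, 4, 5, 1], [4, 6, 2, 4], [4, 6, 4, 1], [6, 1, 3,
  4], [6, 1, 6, 1], [6, 3, 2, 4], [6, 3, 4, 1]]

def SA1 : List (List ℕ) := [[1, 4, 5, 6], [1, 5, 4, 6], [1, 6, 6, 3], [3, 1, 5, 6], [4, 4, 3, 5],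
  [4, 4, 5, 4], [4, 5, 2, 6], [4, 6, 3, 4], [4, 6, 6, 1], [5, 1, 3, 5], [5, 1, 6, 3], [5, 3, 2,
  5], [5, 4, 6, 1], [6, 4, 3, 4], [6, 5, 2, 4], [6, 5, 4, 1]]

def SA2 : List (List ℕ) := [[0, 6, 6, 6], [1, 4, 6, 5], [1, 5, 5, 3], [3, 1, 6, 5], [3, 3, 4, 6],
  [3, 3, 6, 3], [3, 5, 4, 3], [4, 5, 5, 1], [5, 0, 5, 6], [5, 3, 4, 3], [5, 6, 2, 4], [5, 6, 4,
  1], [6, 1, 3, 6], [6, 3, 2, 6]]

lemma ok_SA0 : okL 7 4 SA0 = true := by decide +kernel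

lemma ok_SA1 : okL 7 4 SA1 = true := by decide +kernel

lemma ok_SA2 : okL 7 4 SA2 = true := by decide +kernel

lemma cap_SA0 : capL T7 7 SA0 = true := by decide +kernel

lemma cap_SA1 : capL T7 7 SA1 = true := by decide +kernel

lemma cap_SA2 : capL T7 7 SA2 = true := by decide +kernel

lemma none_SA_001 : none3 T7 7 SA0 SA0 SA1 = true := by decide +kernel

lemma none_SA_002 : none3 T7 7 SA0 SA0 SA2 = true := by decide +kernel

lemma none_SA_012 : none3 T7 7 SA0 SA1 SA2 = true := by decide +kernel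

lemma chk_SA : chk T7 7 T3 4 [SA0, SA1, SA2] = true :=
  chk_of (by decide +kernel) ok_SA0 ok_SA1 ok_SA2 cap_SA0 cap_SA1 cap_SA2 none_SA_001 none_SA_002 none_SA_012

end Pool.Agent.H48Cap
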