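import Pool.Agent.H523R2.Cap.Fin

/-! The check of a system of three classes of words, using the symmetry of the conditions. -/

set_option autoImplicit false

namespace Pool.Agent.H48Cap

open Pool.Agent.H523R2.Cap

/-- allowed patterns of three classes of an extendable triple -/
def T3 : ℕ := 131298577

/-- the table is symmetric on the letters below `q` -/
def symT (T q : ℕ) : Bool :=
  (List.range q).all fun a => (List.range q).all fun b => (List.range q).all fun c =>
    (tst T q a b c == tst T q b a c) && (tst T q a b c == tst T q a c b)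

lemma symT_iff {T q : ℕ} (h : symT T q = true) {a b c : ℕ} (ha : a < q) (hb : b < q) (hc : c < q) :
    tst T q a b c = tst T q b a c ∧ tst T q a b c = tst T q a c b := by
  unfold symT at h
  rw [List.all_eq_true] at h
  have h1 := h a (List.mem_range.2 ha)
  rw [List.all_eq_true] at h1
  have h2 := h1 b (List.mem_range.2 hb)
  rw [List.all_eq_true] at h2
  have h3 := h2 c (List.mem_range.2 hc)
  rw [Bool.and_eq_true, beq_iff_eq, beq_iff_eq] at h3
  exact h3

lemma allE_12 {T q : ℕ} (h : symT T q = true) : ∀ (l m n : List ℕ), (∀ a ∈ l, a < q) →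
    (∀ a ∈ m, a < q) → (∀ a ∈ n, a < q) → allE T q l m n = allE T q m l n
  | a :: l, b :: m, c :: n, hl, hm, hn => by
    rw [allE, allE, (symT_iff h (hl a List.mem_cons_self) (hm b List.mem_cons_self)
      (hn c List.mem_cons_self)).1, allE_12 h l m n (fun x hx => hl x (List.mem_cons_of_mem _ hx))
      (fun x hx => hm x (List.mem_cons_of_mem _ hx)) (fun x hx => hn x (List.mem_cons_of_mem _ hx))]
  | [], [], _, _, _, _ => rfl
  | [], _ :: _, [], _, _, _ => rfl
  | [], _ :: _, _ :: _, _, _, _ => rfl
  | _ :: _, [], _, _, _, _ => by simp [allE]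
  | _ :: _, _ :: _, [], _, _, _ => rfl

lemma allE_23 {T q : ℕ} (h : symT T q = true) : ∀ (l m n : List ℕ), (∀ a ∈ l, a < q) →
    (∀ a ∈ m, a < q) → (∀ a ∈ n, a < q) → allE T q l m n = allE T q l n m
  | a :: l, b :: m, c :: n, hl, hm, hn => by
    rw [allE, allE, (symT_iff h (hl a List.mem_cons_self) (hm b List.mem_cons_self)
      (hn c List.mem_cons_self)).2, allE_23 h l m n (fun x hx => hl x (List.mem_cons_of_mem _ hx))
      (fun x hx => hm x (List.mem_cons_of_mem _ hx)) (fun x hx => hn x (List.mem_cons_of_mem _ hx))]
  | [], _, _, _, _, _ => by simp [allE]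
  | _ :: _, [], [], _, _, _ => rfl
  | _ :: _, [], _ :: _, _, _, _ => rfl
  | _ :: _, _ :: _, [], _, _, _ => rfl

/-- no triple of words has only allowed patterns -/
def none3 (T q : ℕ) (L M N : List (List ℕ)) : Bool :=
  L.all fun l => M.all fun m => N.all fun n => !(allE T q l m n)

/-- the words have length `b` and letters below `q`, and there is no repetition -/
def okL (q b : ℕ) (L : List (List ℕ)) : Bool :=
  (L.all fun l => l.length == b && l.all fun a => decide (a < q)) && decide L.Nodup

/-- no triple of words of the list has only allowed patterns, except the trivial ones -/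
def capL (T q : ℕ) : List (List ℕ) → Bool
  | [] => true
  | l :: L => (L.all fun m => (!(allE T q l l m)) && !(allE T q l m m)) &&
      (pairs l L) && capL T q L
where
  /-- no triple of `l` and two words of the list at different places has only allowed patterns -/
  pairs (l : List ℕ) : List (List ℕ) → Bool
  | [] => true
  | m :: L => (L.all fun n => !(allE T q l m n)) && pairs l L

lemma none3_iff {T q : ℕ} {L M N : List (List ℕ)} : none3 T q L M N = true ↔
    ∀ l ∈ L, ∀ m ∈ M, ∀ n ∈ N, allE T q l m n = false := by
  unfold none3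
  simp only [List.all_eq_true, Bool.not_eq_true']

lemma pairs_sound {T q : ℕ} (hT : symT T q = true) {l : List ℕ} (hl : ∀ a ∈ l, a < q) :
    ∀ L : List (List ℕ), (∀ m ∈ L, ∀ a ∈ m, a < q) → capL.pairs T q l L = true →
      (∀ m ∈ L, allE T q l m m = false) → ∀ m ∈ L, ∀ n ∈ L, allE T q l m n = false
  | [], _, _, _, m, hm, _, _ => absurd hm List.not_mem_nil
  | x :: L, hq, hp, hd, m, hm, n, hn => by
    rw [capL.pairs, Bool.and_eq_true, List.all_eq_true] at hp
    have ih := pairs_sound hT hl L (fun m hm => hq m (List.mem_cons_of_mem _ hm)) hp.2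
      (fun m hm => hd m (List.mem_cons_of_mem _ hm))
    rcases List.mem_cons.1 hm with rfl | hm'
    · rcases List.mem_cons.1 hn with rfl | hn'
      · exact hd _ List.mem_cons_self
      · have := hp.1 n hn'
        rwa [Bool.not_eq_true'] at this
    · rcases List.mem_cons.1 hn with rfl | hn'
      · rw [allE_23 hT l m n hl (hq m hm) (hq n hn)]
        have := hp.1 m hm'
        rwa [Bool.not_eq_true'] at this
      · exact ih m hm' n hn'

lemma capL_sound {T q : ℕ} (hT : symT T q = true) : ∀ L : List (List ℕ),
    (∀ m ∈ L, ∀ a ∈ m, a < q) → capL T q L = true →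
      ∀ l ∈ L, ∀ m ∈ L, ∀ n ∈ L, allE T q l m n = true → l = m ∧ m = n
  | [], _, _, m, hm, _, _, _, _, _ => absurd hm List.not_mem_nil
  | x :: L, hq, hc, l, hl, m, hm, n, hn, he => by
    rw [capL, Bool.and_eq_true, Bool.and_eq_true, List.all_eq_true] at hc
    obtain ⟨⟨h1, h2⟩, h3⟩ := hc
    have h1' : ∀ m ∈ L, allE T q x x m = false ∧ allE T q x m m = false := by
      intro m hm
      have := h1 m hm
      rwa [Bool.and_eq_true, Bool.not_eq_true', Bool.not_eq_true'] at this
    have hqL : ∀ m ∈ L, ∀ a ∈ m, a < q := fun m hm => hq m (List.mem_cons_of_mem _ hm)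
    have hx := hq x List.mem_cons_self
    have ih := capL_sound hT L hqL h3
    have hp := pairs_sound hT hx L hqL h2 (fun m hm => (h1' m hm).2)
    rcases List.mem_cons.1 hl with rfl | hl'
    · rcases List.mem_cons.1 hm with rfl | hm'
      · rcases List.mem_cons.1 hn with rfl | hn'
        · exact ⟨rfl, rfl⟩
        · rw [(h1' n hn').1] at he
          exact absurd he Bool.false_ne_true
      · rcases List.mem_cons.1 hn with rfl | hn'
        · rw [allE_23 hT _ _ _ hx (hq m hm) hx, (h1' m hm').1] at he
          exact absurd he Bool.false_ne_true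
        · rw [hp m hm' n hn'] at he
          exact absurd he Bool.false_ne_true
    · rcases List.mem_cons.1 hm with rfl | hm'
      · rcases List.mem_cons.1 hn with rfl | hn'
        · rw [allE_12 hT _ _ _ (hq l hl) hx hx, allE_23 hT _ _ _ hx (hq l hl) hx,
            (h1' l hl').1] at he
          exact absurd he Bool.false_ne_true
        · rw [allE_12 hT _ _ _ (hq l hl) hx (hq n hn), hp l hl' n hn'] at he
          exact absurd he Bool.false_ne_true
      · rcases List.mem_cons.1 hn with rfl | hn'
        · rw [allE_23 hT _ _ _ (hq l hl) (hq m hm) hx, allE_12 hT _ _ _ (hq l hl) hx (hq m hm),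
            hp l hl' m hm'] at he
          exact absurd he Bool.false_ne_true
        · exact ih l hl' m hm' n hn' he

lemma okL_iff {q b : ℕ} {L : List (List ℕ)} (h : okL q b L = true) :
    (∀ l ∈ L, l.length = b ∧ ∀ a ∈ l, a < q) ∧ L.Nodup := by
  unfold okL at h
  rw [Bool.and_eq_true, List.all_eq_true] at h
  refine ⟨fun l hl => ?_, of_decide_eq_true h.2⟩
  have := h.1 l hl
  rw [Bool.and_eq_true, beq_iff_eq, List.all_eq_true] at this
  exact ⟨this.1, fun a ha => of_decide_eq_true (this.2 a ha)⟩

/-- The conditions of an extended product with three classes, from the symmetric checks. -/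
theorem chk_of {T q b : ℕ} {L M N : List (List ℕ)} (hT : symT T q = true)
    (oL : okL q b L = true) (oM : okL q b M = true) (oN : okL q b N = true)
    (cL : capL T q L = true) (cM : capL T q M = true) (cN : capL T q N = true)
    (h1 : none3 T q L L M = true) (h2 : none3 T q L L N = true) (h3 : none3 T q L M N = true) :
    chk T q T3 b [L, M, N] = true := by
  have qL : ∀ l ∈ L, ∀ a ∈ l, a < q := fun l hl => ((okL_iff oL).1 l hl).2
  have qM : ∀ l ∈ M, ∀ a ∈ l, a < q := fun l hl => ((okL_iff oM).1 l hl).2
  have qN : ∀ l ∈ N, ∀ a ∈ l, a < q := fun l hl => ((okL_iff oN).1 l hl).2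
  rw [none3_iff] at h1 h2 h3
  have sw12 : ∀ {A B C : List (List ℕ)}, (∀ l ∈ A, ∀ a ∈ l, a < q) → (∀ l ∈ B, ∀ a ∈ l, a < q) →
      (∀ l ∈ C, ∀ a ∈ l, a < q) → (∀ l ∈ A, ∀ m ∈ B, ∀ n ∈ C, allE T q l m n = false) →
      ∀ l ∈ B, ∀ m ∈ A, ∀ n ∈ C, allE T q l m n = false := by
    intro A B C hA hB hC h l hl m hm n hn
    rw [allE_12 hT l m n (hB l hl) (hA m hm) (hC n hn)]
    exact h m hm l hl n hn
  have sw23 : ∀ {A B C : List (List ℕ)}, (∀ l ∈ A, ∀ a ∈ l, a < q) → (∀ l ∈ B, ∀ a ∈ l, a < q) →
      (∀ l ∈ C, ∀ a ∈ l, a < q) → (∀ l ∈ A, ∀ m ∈ B, ∀ n ∈ C, allE T q l m n = false) →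
      ∀ l ∈ A, ∀ m ∈ C, ∀ n ∈ B, allE T q l m n = false := by
    intro A B C hA hB hC h l hl m hm n hn
    rw [allE_23 hT l m n (hA l hl) (hC m hm) (hB n hn)]
    exact h l hl n hn m hm
  have h010 := sw23 qL qL qM h1
  have h100 := sw12 qL qM qL h010
  have h020 := sw23 qL qL qN h2
  have h200 := sw12 qL qN qL h020
  have h021 := sw23 qL qM qN h3
  have h102 := sw12 qL qM qN h3
  have h201 := sw12 qL qN qM h021
  have h120 := sw23 qM qL qN h102
  have h210 := sw23 qN qL qM h201
  unfold chk
  simp only [Bool.and_eq_true]
  refine ⟨⟨⟨?_, ?_⟩, ?_⟩, ?_⟩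
  · simp only [List.all_cons, List.all_nil, Bool.and_true, Bool.and_eq_true]
    have e : ∀ K : List (List ℕ), okL q b K = true →
        (K.all fun l => l.length == b && l.all fun a => decide (a < q)) = true := by
      intro K hK
      unfold okL at hK
      rw [Bool.and_eq_true] at hK
      exact hK.1
    exact ⟨e L oL, e M oM, e N oN⟩
  · simp only [List.all_cons, List.all_nil, Bool.and_true, Bool.and_eq_true, decide_eq_true_eq]
    exact ⟨(okL_iff oL).2, (okL_iff oM).2, (okL_iff oN).2⟩
  · have e : ∀ K : List (List ℕ), (∀ l ∈ K, ∀ a ∈ l, a < q) → capL T q K = true →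
        (K.all fun l => K.all fun m => K.all fun n => !(allE T q l m n) || (l == m && m == n))
          = true := by
      intro K hq hK
      simp only [List.all_eq_true]
      intro l hl m hm n hn
      cases hall : allE T q l m n with
      | false => rfl
      | true =>
        obtain ⟨rfl, rfl⟩ := capL_sound hT K hq hK l hl m hm n hn hall
        simp
    simp only [List.all_cons, List.all_nil, Bool.and_true, Bool.and_eq_true]
    exact ⟨e L qL cL, e M qM cM, e N qN cN⟩
  · simp only [List.all_eq_true, List.mem_range, List.length_cons, List.length_nil, zero_add,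
      Nat.reduceAdd, Bool.or_eq_true, Bool.not_eq_true']
    intro i hi j hj k hk
    interval_cases i <;> interval_cases j <;> interval_cases k <;>
      simp only [List.getD_cons_zero, List.getD_cons_succ] <;>
      first
      | exact Or.inl (by decide)
      | exact Or.inr h1
      | exact Or.inr h2
      | exact Or.inr h3
      | exact Or.inr h010
      | exact Or.inr h100
      | exact Or.inr h020
      | exact Or.inr h200
      | exact Or.inr h021
      | exact Or.inr h102
      | exact Or.inr h201
      | exact Or.inr h120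
      | exact Or.inr h210

/-- The conditions of an extended product, checked for sorted triples of classes only. -/
theorem chk_gen {T q T' b : ℕ} {S : List (List (List ℕ))} (hT : symT T q = true)
    (hT' : symT T' S.length = true) (ok : (S.all fun L => okL q b L) = true)
    (cap : (S.all fun L => capL T q L) = true)
    (h : ((List.range S.length).all fun i => (List.range S.length).all fun j =>
      (List.range S.length).all fun k => !(decide (i ≤ j)) || !(decide (j ≤ k)) ||
        tst T' S.length i j k || none3 T q (S.getD i []) (S.getD j []) (S.getD k [])) = true) :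
    chk T q T' b S = true := by
  rw [List.all_eq_true] at ok cap
  have hmem : ∀ i < S.length, S.getD i [] ∈ S := by
    intro i hi
    rw [List.getD_eq_getElem _ _ hi]
    exact List.getElem_mem hi
  have hq : ∀ i < S.length, ∀ l ∈ S.getD i [], ∀ a ∈ l, a < q := fun i hi l hl =>
    ((okL_iff (ok _ (hmem i hi))).1 l hl).2
  simp only [List.all_eq_true, List.mem_range, Bool.or_eq_true, Bool.not_eq_true',
    decide_eq_false_iff_not] at h
  have hs : ∀ i < S.length, ∀ j < S.length, ∀ k < S.length, i ≤ j → j ≤ k →
      tst T' S.length i j k = false → ∀ l ∈ S.getD i [], ∀ m ∈ S.getD j [], ∀ n ∈ S.getD k [],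
        allE T q l m n = false := by
    intro i hi j hj k hk hij hjk ht
    rcases h i hi j hj k hk with ((h | h) | h) | h
    · exact absurd hij h
    · exact absurd hjk h
    · rw [ht] at h; exact absurd h Bool.false_ne_true
    · exact none3_iff.1 h
  have a12 : ∀ i < S.length, ∀ j < S.length, ∀ k < S.length,
      (∀ l ∈ S.getD i [], ∀ m ∈ S.getD j [], ∀ n ∈ S.getD k [], allE T q l m n = false) →
      ∀ l ∈ S.getD j [], ∀ m ∈ S.getD i [], ∀ n ∈ S.getD k [], allE T q l m n = false := by
    intro i hi j hj k hk h l hl m hm n hn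
    rw [allE_12 hT l m n (hq j hj l hl) (hq i hi m hm) (hq k hk n hn)]
    exact h m hm l hl n hn
  have a23 : ∀ i < S.length, ∀ j < S.length, ∀ k < S.length,
      (∀ l ∈ S.getD i [], ∀ m ∈ S.getD j [], ∀ n ∈ S.getD k [], allE T q l m n = false) →
      ∀ l ∈ S.getD i [], ∀ m ∈ S.getD k [], ∀ n ∈ S.getD j [], allE T q l m n = false := by
    intro i hi j hj k hk h l hl m hm n hn
    rw [allE_23 hT l m n (hq i hi l hl) (hq k hk m hm) (hq j hj n hn)]
    exact h l hl n hn m hm
  have t12 : ∀ i < S.length, ∀ j < S.length, ∀ k < S.length,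
      tst T' S.length i j k = tst T' S.length j i k := fun i hi j hj k hk => (symT_iff hT' hi hj hk).1
  have t23 : ∀ i < S.length, ∀ j < S.length, ∀ k < S.length,
      tst T' S.length i j k = tst T' S.length i k j := fun i hi j hj k hk => (symT_iff hT' hi hj hk).2
  have hall : ∀ i < S.length, ∀ j < S.length, ∀ k < S.length,
      tst T' S.length i j k = false → ∀ l ∈ S.getD i [], ∀ m ∈ S.getD j [], ∀ n ∈ S.getD k [],
        allE T q l m n = false := by
    intro i hi j hj k hk ht
    rcases le_total i j with hij | hij
    · rcases le_total j k with hjk | hjk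
      · exact hs i hi j hj k hk hij hjk ht
      · rcases le_total i k with hik | hik
        · -- i ≤ k ≤ j
          refine a23 i hi k hk j hj (hs i hi k hk j hj hik hjk ?_)
          rw [← t23 i hi j hj k hk]; exact ht
        · -- k ≤ i ≤ j
          refine a23 i hi k hk j hj (a12 k hk i hi j hj (hs k hk i hi j hj hik hij ?_))
          rw [← t12 i hi k hk j hj, ← t23 i hi j hj k hk]; exact ht
    · rcases le_total i k with hik | hik
      · -- j ≤ i ≤ k
        refine a12 j hj i hi k hk (hs j hj i hi k hk hij hik ?_)
        rw [← t12 i hi j hj k hk]; exact ht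
      · rcases le_total j k with hjk | hjk
        · -- j ≤ k ≤ i
          refine a12 j hj i hi k hk (a23 j hj k hk i hi (hs j hj k hk i hi hjk hik ?_))
          rw [← t23 j hj i hi k hk, ← t12 i hi j hj k hk]; exact ht
        · -- k ≤ j ≤ i
          refine a12 j hj i hi k hk (a23 j hj k hk i hi (a12 k hk j hj i hi
            (hs k hk j hj i hi hjk hij ?_)))
          rw [← t12 j hj k hk i hi, ← t23 j hj i hi k hk, ← t12 i hi j hj k hk]; exact ht
  unfold chk
  simp only [Bool.and_eq_true]
  refine ⟨⟨⟨?_, ?_⟩, ?_⟩, ?_⟩
  · rw [List.all_eq_true]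
    intro L hL
    have := ok L hL
    unfold okL at this
    rw [Bool.and_eq_true] at this
    exact this.1
  · rw [List.all_eq_true]
    intro L hL
    exact decide_eq_true (okL_iff (ok L hL)).2
  · simp only [List.all_eq_true]
    intro L hL l hl m hm n hn
    cases hall : allE T q l m n with
    | false => rfl
    | true =>
      obtain ⟨rfl, rfl⟩ := capL_sound hT L (fun l hl => ((okL_iff (ok L hL)).1 l hl).2) (cap L hL)
        l hl m hm n hn hall
      simp
  · simp only [List.all_eq_true, List.mem_range, Bool.or_eq_true, Bool.not_eq_true']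
    intro i hi j hj k hk
    cases ht : tst T' S.length i j k with
    | true => exact Or.inl rfl
    | false => exact Or.inr (hall i hi j hj k hk ht)

end Pool.Agent.H48Cap
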