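import Pool.Agent.H48Cap.Sym

/-! The tables of allowed patterns and the auxiliary systems. -/

set_option autoImplicit false

namespace Pool.Agent.H48Cap

open Pool.Agent.H523R2.Cap

/-- allowed patterns of the letters `0, 1, 2` as vectors of `F_3` -/
def T1 : ℕ := 69773473

/-- allowed patterns of the five classes `0`, `±(1,0)`, `±(0,1)`, `±(1,1)`, `±(1,2)` in dimension 2 -/
def T5 : ℕ := 22859594229486452319306007780226502721

/-- allowed patterns of the six classes of `SF` -/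
def T6 : ℕ := 54669791472833856609645909514709261974622332400117125032397783169

/-- allowed patterns of the seven classes of `SL` -/
def T7 : ℕ :=
  17883582463697439714106985005487523321207837455281427489022257461386656029971747546175552148328631304449

/-- the five classes in dimension 2 -/
def S5 : List (List (List ℕ)) := [[[0, 0]], [[1, 0], [2, 0]], [[0, 1], [0, 2]], [[1, 1], [2, 2]],
  [[1, 2], [2, 1]]]

/-- the six classes in dimension 6 as words over the five classes of dimension 2 -/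
def SF : List (List (List ℕ)) := [[[0, 0, 0]], [[0, 0, 1], [0, 0, 2], [0, 1, 0], [0, 2, 0], [1, 0,
  0], [2, 0, 0]], [[0, 3, 1], [0, 3, 2], [0, 4, 1], [0, 4, 2], [1, 0, 3], [1, 0, 4], [1, 1, 1],
  [1, 2, 2], [2, 0, 3], [2, 0, 4], [2, 1, 2], [2, 2, 1], [3, 1, 0], [3, 2, 0], [4, 1, 0], [4, 2,
  0]], [[0, 1, 3], [0, 1, 4], [0, 2, 3], [0, 2, 4], [1, 1, 2], [1, 2, 1], [1, 3, 0], [1, 4, 0],
  [2, 1, 1], [2, 2, 2], [2, 3, 0], [2, 4, 0], [3, 0, 1], [3, 0, 2], [4, 0, 1], [4, 0, 2]], [[3, 3,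
  3], [3, 4, 4], [4, 3, 4], [4, 4, 3]], [[3, 3, 4], [3, 4, 3], [4, 3, 3], [4, 4, 4]]]

/-- three classes in dimension 24 -/
def SX : List (List (List ℕ)) := [[[1, 1, 3, 5], [1, 1, 5, 3], [1, 2, 3, 4], [1, 2, 4, 3], [1, 2,
  4, 4], [1, 3, 1, 5], [1, 3, 2, 3], [1, 4, 2, 3], [1, 4, 2, 4], [1, 4, 4, 3], [1, 4, 4, 4], [1,
  5, 1, 4], [2, 1, 3, 4], [2, 1, 4, 3], [2, 1, 4, 4], [2, 3, 1, 4], [3, 1, 3, 2], [3, 1, 5, 1],
  [3, 2, 4, 1], [3, 3, 1, 2], [3, 3, 2, 1], [3, 4, 1, 2], [3, 4, 1, 4], [3, 4, 2, 1], [3, 4, 4,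
  1], [4, 1, 3, 2], [4, 1, 3, 4], [4, 1, 4, 3], [4, 1, 4, 4], [4, 1, 5, 1], [4, 2, 4, 1], [4, 3,
  1, 2], [4, 3, 1, 4], [4, 3, 2, 1], [4, 4, 1, 2], [4, 4, 1, 4], [4, 4, 2, 1], [4, 4, 4, 1]], [[2,
  3, 2, 3], [2, 3, 2, 4], [2, 3, 4, 3], [2, 3, 4, 4], [2, 4, 2, 3], [2, 4, 2, 4], [2, 4, 4, 3],
  [2, 4, 4, 4], [4, 3, 2, 3], [4, 3, 2, 4], [4, 3, 4, 3], [4, 3, 4, 4], [4, 4, 2, 3], [4, 4, 2,
  4], [4, 4, 4, 3], [4, 4, 4, 4]], [[3, 2, 3, 2], [3, 2, 3, 4], [3, 2, 4, 2], [3, 2, 4, 4], [3, 4,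
  3, 2], [3, 4, 3, 4], [3, 4, 4, 2], [3, 4, 4, 4], [4, 2, 3, 2], [4, 2, 3, 4], [4, 2, 4, 2], [4,
  2, 4, 4], [4, 4, 3, 2], [4, 4, 3, 4], [4, 4, 4, 2], [4, 4, 4, 4]]]

/-- seven classes of words of length 3 over three classes -/
def SL : List (List (List ℕ)) := [[[0, 0, 0]], [[0, 0, 1], [0, 1, 0], [1, 0, 0]], [[0, 0, 2], [0,
  2, 0], [2, 0, 0]], [[0, 1, 2], [1, 2, 0], [2, 0, 1]], [[0, 2, 1], [1, 0, 2], [2, 1, 0]], [[1, 1,
  1]], [[2, 2, 2]]]

lemma chk_S5 : chk T1 3 T5 2 S5 = true :=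
  chk_gen (by decide +kernel) (by decide +kernel) (by decide +kernel) (by decide +kernel)
    (by decide +kernel)

lemma chk_SF : chk T5 5 T6 3 SF = true :=
  chk_gen (by decide +kernel) (by decide +kernel) (by decide +kernel) (by decide +kernel)
    (by decide +kernel)

lemma chk_SX : chk T6 6 T3 4 SX = true :=
  chk_gen (by decide +kernel) (by decide +kernel) (by decide +kernel) (by decide +kernel)
    (by decide +kernel)

lemma chk_SL : chk T3 3 T7 3 SL = true :=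
  chk_gen (by decide +kernel) (by decide +kernel) (by decide +kernel) (by decide +kernel)
    (by decide +kernel)

end Pool.Agent.H48Cap
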